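import Mathlib

/-!
# MP_401231_co, Q2: complements of even subdivisions as `B₁`-VPG graphs

Every finite graph `G` (planar or not) has an even subdivision `G'` (each edge is subdivided exactly
twice) whose complement is a `B₁`-VPG graph. The vertices of `G` are represented by long paths with
the bend in the lower left corner, the new vertices by paths with the bend in the upper right
corner; all the paths go around a common point.
-/

set_option autoImplicit false

namespace Pool.Agent.Results.MP_401231_co.EveryGraphOneBend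

/-- A path of positive length made of edges of the grid `ℤ × ℤ`: `n` edges, and the pairwise
distinct grid points `p 0, ..., p n`, consecutive ones at distance one. -/
structure GridPath where
  /-- the number of edges -/
  n : ℕ
  /-- the points (only `p 0, ..., p n` matter) -/
  p : ℕ → ℤ × ℤ
  pos : 0 < n
  adj : ∀ k < n, ((p k).1 = (p (k + 1)).1 ∧ |(p k).2 - (p (k + 1)).2| = 1) ∨
    ((p k).2 = (p (k + 1)).2 ∧ |(p k).1 - (p (k + 1)).1| = 1)
  inj : ∀ j k, j ≤ n → k ≤ n → p j = p k → j = k

/-- The path switches between horizontal and vertical at its inner point `p k`. -/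
def GridPath.Bend (P : GridPath) (k : ℕ) : Prop :=
  0 < k ∧ k < P.n ∧
    (((P.p (k - 1)).1 = (P.p k).1 ∧ (P.p k).2 = (P.p (k + 1)).2) ∨
      ((P.p (k - 1)).2 = (P.p k).2 ∧ (P.p k).1 = (P.p (k + 1)).1))

/-- The grid points of the path. -/
def GridPath.points (P : GridPath) : Set (ℤ × ℤ) := {q | ∃ k ≤ P.n, P.p k = q}

/-- `H` is a `B₁`-VPG graph: its vertices can be assigned grid paths with at most one bend each, so
that two distinct vertices are adjacent exactly when their paths share a grid point. -/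
def IsB1VPG {W : Type} (H : SimpleGraph W) : Prop :=
  ∃ s : W → GridPath, (∀ a, ∀ j k, (s a).Bend j → (s a).Bend k → j = k) ∧
    ∀ a b : W, a ≠ b → (H.Adj a b ↔ ((s a).points ∩ (s b).points).Nonempty)

/-- `G'` is an even subdivision of `G`: the vertices `v` of `G` are identified with pairwise
distinct vertices `f v` of `G'`, every edge `uv` of `G` is replaced by a path `P u v` of `G'` from
`f u` to `f v` whose length is odd (so it has an even number of inner vertices); the inner vertices
of the paths are new (not of the form `f x`), the paths of different edges share no inner vertex,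
and every vertex and every edge of `G'` arises in this way. -/
def IsEvenSubdivision {V W : Type} (G : SimpleGraph V) (G' : SimpleGraph W) : Prop :=
  ∃ (f : V → W) (P : ∀ u v : V, G.Adj u v → G'.Walk (f u) (f v)),
    Function.Injective f ∧
    (∀ u v (h : G.Adj u v), (P u v h).IsPath ∧ Odd (P u v h).length) ∧
    (∀ u v (h : G.Adj u v), P v u h.symm = (P u v h).reverse) ∧
    (∀ u v (h : G.Adj u v) x, f x ∈ (P u v h).support → x = u ∨ x = v) ∧
    (∀ u v (h : G.Adj u v) u' v' (h' : G.Adj u' v'), ∀ w ∈ (P u v h).support,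
      w ∈ (P u' v' h').support → w ∈ Set.range f ∨ s(u, v) = s(u', v')) ∧
    (∀ w, w ∈ Set.range f ∨ ∃ u v, ∃ h : G.Adj u v, w ∈ (P u v h).support) ∧
    (∀ e ∈ G'.edgeSet, ∃ u v, ∃ h : G.Adj u v, e ∈ (P u v h).edges)

/-! ### The paths -/

section Shape

/-- The path with the corner `(x, y)`, a vertical arm of length `v` and a horizontal arm of
length `h`, going up and to the right if `e = 1`, down and to the left if `e = -1`. -/
def shape (e x y : ℤ) (he : e = 1 ∨ e = -1) (v h : ℕ) (hv : 0 < v) : GridPath where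
  n := v + h
  p k := if k ≤ v then (x, y + e * ((v : ℤ) - k)) else (x + e * ((k : ℤ) - v), y)
  pos := by omega
  adj := by
    intro k hk
    rcases lt_trichotomy k v with h1 | h1 | h1
    · left
      rw [if_pos (by omega), if_pos (by omega)]
      refine ⟨rfl, ?_⟩
      push_cast
      rcases he with rfl | rfl
      · rw [show y + 1 * ((v : ℤ) - k) - (y + 1 * ((v : ℤ) - (k + 1))) = 1 by ring]; rfl
      · rw [show y + -1 * ((v : ℤ) - k) - (y + -1 * ((v : ℤ) - (k + 1))) = -1 by ring]; rfl
    · right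
      subst h1
      rw [if_pos (le_refl _), if_neg (by omega)]
      push_cast
      rcases he with rfl | rfl
      · refine ⟨by ring, ?_⟩
        rw [show x - (x + 1 * ((k : ℤ) + 1 - k)) = -1 by ring]; rfl
      · refine ⟨by ring, ?_⟩
        rw [show x - (x + -1 * ((k : ℤ) + 1 - k)) = 1 by ring]; rfl
    · right
      rw [if_neg (by omega), if_neg (by omega)]
      refine ⟨rfl, ?_⟩
      push_cast
      rcases he with rfl | rfl
      · rw [show x + 1 * ((k : ℤ) - v) - (x + 1 * ((k : ℤ) + 1 - v)) = -1 by ring]; rfl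
      · rw [show x + -1 * ((k : ℤ) - v) - (x + -1 * ((k : ℤ) + 1 - v)) = 1 by ring]; rfl
  inj := by
    intro j k _ _ h
    rcases he with rfl | rfl <;> (split_ifs at h <;> rw [Prod.mk.injEq] at h <;> omega)

theorem shape_bend (e x y : ℤ) (he : e = 1 ∨ e = -1) (v h : ℕ) (hv : 0 < v) (k : ℕ)
    (hk : (shape e x y he v h hv).Bend k) : k = v := by
  obtain ⟨h0, hn, hb⟩ := hk
  simp only [shape] at hn hb
  rcases he with rfl | rfl <;> split_ifs at hb <;> simp only at hb <;> omega

theorem shape_points (e x y : ℤ) (he : e = 1 ∨ e = -1) (v h : ℕ) (hv : 0 < v) (q : ℤ × ℤ) :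
    q ∈ (shape e x y he v h hv).points ↔
      (q.1 = x ∧ 0 ≤ e * (q.2 - y) ∧ e * (q.2 - y) ≤ v) ∨
      (q.2 = y ∧ 0 ≤ e * (q.1 - x) ∧ e * (q.1 - x) ≤ h) := by
  obtain ⟨a, b⟩ := q
  constructor
  · rintro ⟨k, hk, hq⟩
    simp only [shape] at hk hq
    split_ifs at hq with h1
    · rw [Prod.mk.injEq] at hq
      left
      rcases he with rfl | rfl <;> simp only <;> omega
    · rw [Prod.mk.injEq] at hq
      right
      rcases he with rfl | rfl <;> simp only <;> omega
  · rintro (⟨h1, h2, h3⟩ | ⟨h1, h2, h3⟩)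
    · simp only at h1 h2 h3
      refine ⟨v - (e * (b - y)).toNat, by simp only [shape]; omega, ?_⟩
      simp only [shape]
      rw [if_pos (by omega), Prod.mk.injEq]
      refine ⟨h1.symm, ?_⟩
      rcases he with rfl | rfl <;> omega
    · simp only at h1 h2 h3
      rcases Nat.eq_zero_or_pos (e * (a - x)).toNat with h4 | h4
      · refine ⟨v, by simp only [shape]; omega, ?_⟩
        simp only [shape]
        rw [if_pos (le_refl _), Prod.mk.injEq]
        rcases he with rfl | rfl <;> omega
      · refine ⟨v + (e * (a - x)).toNat, by simp only [shape]; omega, ?_⟩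
        simp only [shape]
        rw [if_neg (by omega), Prod.mk.injEq]
        rcases he with rfl | rfl <;> omega

end Shape

/-! ### The subdivision -/

section Sub

variable {V : Type} (G : SimpleGraph V)

/-- the subdivision: the dart from `u` to `v` is the new vertex of the edge `uv` next to `u` -/
def sub : SimpleGraph (V ⊕ G.Dart) where
  Adj a b := match a, b with
    | .inl u, .inr d => d.fst = u
    | .inr d, .inl u => d.fst = u
    | .inr d, .inr d' => d' = d.symm
    | .inl _, .inl _ => False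
  symm := ⟨by
    rintro (u | d) (v | d') h
    · exact h
    · exact h
    · exact h
    · change d = d'.symm
      have h' : d' = d.symm := h
      rw [h', SimpleGraph.Dart.symm_symm]⟩
  loopless := ⟨by
    rintro (u | d) h
    · exact h
    · exact d.symm_ne h.symm⟩

variable {G}

/-- the new vertex of the edge `uv` next to `u` -/
def nw {u v : V} (h : G.Adj u v) : G.Dart := ⟨(u, v), h⟩

/-- the path of the edge `uv` -/
def path (u v : V) (h : G.Adj u v) : (sub G).Walk (.inl u) (.inl v) :=
  .cons (show (sub G).Adj (.inl u) (.inr (nw h)) from rfl)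
    (.cons (show (sub G).Adj (.inr (nw h)) (.inr (nw h.symm)) from rfl)
      (.cons (show (sub G).Adj (.inr (nw h.symm)) (.inl v) from rfl) .nil))

theorem nw_ne {u v : V} (h : G.Adj u v) : nw h ≠ nw h.symm := by
  intro h1
  exact h.ne (congrArg (fun d : G.Dart => d.fst) h1)

theorem mem_support {u v : V} (h : G.Adj u v) (w : V ⊕ G.Dart) :
    w ∈ (path u v h).support ↔ w = .inl u ∨ w = .inr (nw h) ∨ w = .inr (nw h.symm) ∨
      w = .inl v := by
  simp [path]

theorem even_subdivision : IsEvenSubdivision G (sub G) := by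
  refine ⟨Sum.inl, path, Sum.inl_injective, ?_, ?_, ?_, ?_, ?_, ?_⟩
  · intro u v h
    refine ⟨?_, ⟨1, rfl⟩⟩
    rw [SimpleGraph.Walk.isPath_def]
    simp [path, nw_ne h, h.ne]
  · intro u v h
    rfl
  · intro u v h x hx
    rw [mem_support] at hx
    simpa using hx
  · intro u v h u' v' h' w hw hw'
    rw [mem_support] at hw hw'
    rcases hw with rfl | rfl | rfl | rfl
    · exact Or.inl ⟨u, rfl⟩
    · right
      rcases hw' with h1 | h1 | h1 | h1
      · exact absurd h1 (by simp)
      · have h2 := Sum.inr_injective h1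
        rw [congrArg (fun d : G.Dart => d.fst) h2 |> (id : u = u' → u = u'),
          congrArg (fun d : G.Dart => d.snd) h2 |> (id : v = v' → v = v')]
      · have h2 := Sum.inr_injective h1
        rw [congrArg (fun d : G.Dart => d.fst) h2 |> (id : u = v' → u = v'),
          congrArg (fun d : G.Dart => d.snd) h2 |> (id : v = u' → v = u')]
        exact Sym2.eq_swap
      · exact absurd h1 (by simp)
    · right
      rcases hw' with h1 | h1 | h1 | h1
      · exact absurd h1 (by simp)
      · have h2 := Sum.inr_injective h1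
        rw [congrArg (fun d : G.Dart => d.fst) h2 |> (id : v = u' → v = u'),
          congrArg (fun d : G.Dart => d.snd) h2 |> (id : u = v' → u = v')]
        exact Sym2.eq_swap
      · have h2 := Sum.inr_injective h1
        rw [congrArg (fun d : G.Dart => d.fst) h2 |> (id : v = v' → v = v'),
          congrArg (fun d : G.Dart => d.snd) h2 |> (id : u = u' → u = u')]
      · exact absurd h1 (by simp)
    · exact Or.inl ⟨v, rfl⟩
  · rintro (x | d)
    · exact Or.inl ⟨x, rfl⟩
    · right
      refine ⟨d.fst, d.snd, d.adj, ?_⟩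
      rw [mem_support]
      right
      left
      rfl
  · intro e
    refine Sym2.ind (fun a b => ?_) e
    intro hab
    rw [SimpleGraph.mem_edgeSet] at hab
    rcases a with u | d <;> rcases b with v | d'
    · exact absurd hab (fun h => h)
    · have h1 : d'.fst = u := hab
      subst h1
      refine ⟨d'.fst, d'.snd, d'.adj, ?_⟩
      simp only [path, SimpleGraph.Walk.edges_cons]
      exact List.mem_cons_self
    · have h1 : d.fst = v := hab
      subst h1
      refine ⟨d.fst, d.snd, d.adj, ?_⟩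
      simp only [path, SimpleGraph.Walk.edges_cons]
      rw [Sym2.eq_swap]
      exact List.mem_cons_self
    · have h1 : d' = d.symm := hab
      subst h1
      refine ⟨d.fst, d.snd, d.adj, ?_⟩
      simp only [path, SimpleGraph.Walk.edges_cons]
      exact List.mem_cons_of_mem _ List.mem_cons_self

end Sub

/-! ### The representation -/

section Rep

/-- coordinates: `a`, `b` are the numbers of the ends of the edge, `n` the number of vertices -/
def lo (a b : ℕ) : ℤ := if a < b then a else b
/-- the other end -/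
def hi (a b : ℕ) : ℤ := if a < b then b else a
/-- the number of the edge -/
def num (n a b : ℕ) : ℤ := lo a b * n + hi a b
/-- which end -/
def bit (a b : ℕ) : ℤ := if a < b then 0 else 1
/-- first coordinate of the corner of a new vertex -/
def ex (n a b : ℕ) : ℤ := 2 * num n a b + bit a b + 1
/-- second coordinate of the corner of a new vertex -/
def ey (n a b : ℕ) : ℤ := 2 * ((n : ℤ) * n - num n a b) + bit a b + 1

theorem num_lt {n a b : ℕ} (ha : a < n) (hb : b < n) : 0 ≤ num n a b ∧ num n a b < (n : ℤ) * n := by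
  have h1 : 0 ≤ lo a b ∧ lo a b ≤ n - 1 := by unfold lo; split_ifs <;> omega
  have h2 : 0 ≤ hi a b ∧ hi a b ≤ n - 1 := by unfold hi; split_ifs <;> omega
  unfold num
  constructor
  · nlinarith
  · nlinarith

theorem num_inj {n a b a' b' : ℕ} (ha : a < n) (hb : b < n) (ha' : a' < n) (hb' : b' < n)
    (h : num n a b = num n a' b') : (a = a' ∧ b = b') ∨ (a = b' ∧ b = a') := by
  have h1 : 0 ≤ hi a b ∧ hi a b < n := by unfold hi; split_ifs <;> omega
  have h2 : 0 ≤ hi a' b' ∧ hi a' b' < n := by unfold hi; split_ifs <;> omega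
  have h3 : lo a b = lo a' b' := by
    unfold num at h
    rcases lt_trichotomy (lo a b) (lo a' b') with h4 | h4 | h4
    · nlinarith
    · exact h4
    · nlinarith
  have h4 : hi a b = hi a' b' := by
    unfold num at h
    rw [h3] at h
    linarith
  unfold lo at h3
  unfold hi at h4
  split_ifs at h3 h4 <;> omega

theorem num_symm (n a b : ℕ) : num n a b = num n b a := by
  unfold num lo hi
  split_ifs with h1 h2 h2
  · omega
  · ring
  · ring
  · have : a = b := by omega
    subst this
    ring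

theorem bit_cases (a b : ℕ) : bit a b = 0 ∨ bit a b = 1 := by
  unfold bit; split_ifs <;> simp

theorem bit_symm {a b : ℕ} (h : a ≠ b) : bit a b + bit b a = 1 := by
  unfold bit; split_ifs <;> omega

variable {V : Type} (G : SimpleGraph V) (n : ℕ) (c : V → ℕ)

/-- the path of a vertex or of a new vertex -/
def rep : V ⊕ G.Dart → GridPath
  | .inl u => shape 1 (-(2 * ((n : ℤ) - c u))) (-(2 * ((c u : ℤ) + 1))) (Or.inl rfl)
      (2 * (n * n) + 2 * n + 8) (2 * (n * n) + 2 * n + 8) (by omega)
  | .inr d => shape (-1) (ex n (c d.fst) (c d.snd)) (ey n (c d.fst) (c d.snd)) (Or.inr rfl)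
      (max 1 (ey n (c d.fst) (c d.snd) + (2 * (c d.fst : ℤ) + 1)).toNat)
      (ex n (c d.fst) (c d.snd) + (2 * ((n : ℤ) - c d.fst) - 1)).toNat (by omega)

theorem rep_bend (a : V ⊕ G.Dart) (j k : ℕ) (hj : (rep G n c a).Bend j)
    (hk : (rep G n c a).Bend k) : j = k := by
  rcases a with u | d
  · have h := shape_bend 1 (-(2 * ((n : ℤ) - c u))) (-(2 * ((c u : ℤ) + 1))) (Or.inl rfl)
      (2 * (n * n) + 2 * n + 8) (2 * (n * n) + 2 * n + 8) (by omega)
    exact (h j hj).trans (h k hk).symm
  · have h := shape_bend (-1) (ex n (c d.fst) (c d.snd)) (ey n (c d.fst) (c d.snd)) (Or.inr rfl)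
      (max 1 (ey n (c d.fst) (c d.snd) + (2 * (c d.fst : ℤ) + 1)).toNat)
      (ex n (c d.fst) (c d.snd) + (2 * ((n : ℤ) - c d.fst) - 1)).toNat (by omega)
    exact (h j hj).trans (h k hk).symm

theorem mem_u (u : V) (q : ℤ × ℤ) : q ∈ (rep G n c (.inl u)).points ↔
    (q.1 = -(2 * ((n : ℤ) - c u)) ∧ 0 ≤ q.2 + 2 * ((c u : ℤ) + 1) ∧
      q.2 + 2 * ((c u : ℤ) + 1) ≤ 2 * ((n : ℤ) * n) + 2 * n + 8) ∨
    (q.2 = -(2 * ((c u : ℤ) + 1)) ∧ 0 ≤ q.1 + 2 * ((n : ℤ) - c u) ∧
      q.1 + 2 * ((n : ℤ) - c u) ≤ 2 * ((n : ℤ) * n) + 2 * n + 8) := by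
  have h := shape_points 1 (-(2 * ((n : ℤ) - c u))) (-(2 * ((c u : ℤ) + 1))) (Or.inl rfl)
      (2 * (n * n) + 2 * n + 8) (2 * (n * n) + 2 * n + 8) (by omega) q
  refine h.trans ?_
  push_cast
  rw [one_mul, one_mul, sub_neg_eq_add, sub_neg_eq_add]

theorem mem_d (d : G.Dart) (hd : c d.fst < n) (hX : 0 ≤ num n (c d.fst) (c d.snd))
    (hY : num n (c d.fst) (c d.snd) < (n : ℤ) * n) (q : ℤ × ℤ) :
    q ∈ (rep G n c (.inr d)).points ↔
    (q.1 = ex n (c d.fst) (c d.snd) ∧ q.2 ≤ ey n (c d.fst) (c d.snd) ∧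
      -(2 * (c d.fst : ℤ) + 1) ≤ q.2) ∨
    (q.2 = ey n (c d.fst) (c d.snd) ∧ q.1 ≤ ex n (c d.fst) (c d.snd) ∧
      -(2 * ((n : ℤ) - c d.fst) - 1) ≤ q.1) := by
  have h := shape_points (-1) (ex n (c d.fst) (c d.snd)) (ey n (c d.fst) (c d.snd)) (Or.inr rfl)
      (max 1 (ey n (c d.fst) (c d.snd) + (2 * (c d.fst : ℤ) + 1)).toNat)
      (ex n (c d.fst) (c d.snd) + (2 * ((n : ℤ) - c d.fst) - 1)).toNat (by omega) q
  refine h.trans ?_
  clear h
  have hb := bit_cases (c d.fst) (c d.snd)
  have h1 : ex n (c d.fst) (c d.snd) =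
    2 * num n (c d.fst) (c d.snd) + bit (c d.fst) (c d.snd) + 1 := rfl
  have h2 : ey n (c d.fst) (c d.snd) =
    2 * ((n : ℤ) * n - num n (c d.fst) (c d.snd)) + bit (c d.fst) (c d.snd) + 1 := rfl
  have h3 : 0 < ex n (c d.fst) (c d.snd) := by omega
  have h4 : 0 < ey n (c d.fst) (c d.snd) := by omega
  generalize ex n (c d.fst) (c d.snd) = x at *
  generalize ey n (c d.fst) (c d.snd) = y at *
  have hd' : (c d.fst : ℤ) < n := by exact_mod_cast hd
  constructor
  · rintro (⟨e1, e2, e3⟩ | ⟨e1, e2, e3⟩)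
    · left; omega
    · right; omega
  · rintro (⟨e1, e2, e3⟩ | ⟨e1, e2, e3⟩)
    · left; omega
    · right; omega

variable (hc : ∀ v, c v < n) (hinj : Function.Injective c)

include hc

theorem uu {u v : V} (h : c u < c v) :
    ((rep G n c (.inl u)).points ∩ (rep G n c (.inl v)).points).Nonempty := by
  have hv := hc v
  have hn : 0 ≤ (n : ℤ) * n := by positivity
  refine ⟨(-(2 * ((n : ℤ) - c v)), -(2 * ((c u : ℤ) + 1))), ?_, ?_⟩
  · rw [mem_u]; right; refine ⟨rfl, ?_, ?_⟩ <;> dsimp only <;> omega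
  · rw [mem_u]; left; refine ⟨rfl, ?_, ?_⟩ <;> dsimp only <;> omega

theorem ud {u : V} {d : G.Dart} (h : c d.fst ≠ c u) :
    ((rep G n c (.inl u)).points ∩ (rep G n c (.inr d)).points).Nonempty := by
  have hv := hc u
  have hd := hc d.fst
  obtain ⟨h5, h6⟩ := num_lt (hc d.fst) (hc d.snd)
  have hb := bit_cases (c d.fst) (c d.snd)
  have h1 : ex n (c d.fst) (c d.snd) =
    2 * num n (c d.fst) (c d.snd) + bit (c d.fst) (c d.snd) + 1 := rfl
  have h2 : ey n (c d.fst) (c d.snd) =
    2 * ((n : ℤ) * n - num n (c d.fst) (c d.snd)) + bit (c d.fst) (c d.snd) + 1 := rfl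
  rcases lt_or_gt_of_ne h with h3 | h3
  · refine ⟨(-(2 * ((n : ℤ) - c u)), ey n (c d.fst) (c d.snd)), ?_, ?_⟩
    · rw [mem_u]; left; refine ⟨rfl, ?_, ?_⟩ <;> dsimp only <;> omega
    · rw [mem_d G n c d hd h5 h6]; right; refine ⟨rfl, ?_, ?_⟩ <;> dsimp only <;> omega
  · refine ⟨(ex n (c d.fst) (c d.snd), -(2 * ((c u : ℤ) + 1))), ?_, ?_⟩
    · rw [mem_u]; right; refine ⟨rfl, ?_, ?_⟩ <;> dsimp only <;> omega
    · rw [mem_d G n c d hd h5 h6]; left; refine ⟨rfl, ?_, ?_⟩ <;> dsimp only <;> omega

theorem ud_not {d : G.Dart} :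
    ¬ ((rep G n c (.inl d.fst)).points ∩ (rep G n c (.inr d)).points).Nonempty := by
  rintro ⟨q, h1, h2⟩
  have hd := hc d.fst
  obtain ⟨h5, h6⟩ := num_lt (hc d.fst) (hc d.snd)
  have hb := bit_cases (c d.fst) (c d.snd)
  have h3 : ex n (c d.fst) (c d.snd) =
    2 * num n (c d.fst) (c d.snd) + bit (c d.fst) (c d.snd) + 1 := rfl
  have h4 : ey n (c d.fst) (c d.snd) =
    2 * ((n : ℤ) * n - num n (c d.fst) (c d.snd)) + bit (c d.fst) (c d.snd) + 1 := rfl
  rw [mem_u] at h1
  rw [mem_d G n c d hd h5 h6] at h2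
  omega

theorem dd {d d' : G.Dart} (h : num n (c d.fst) (c d.snd) < num n (c d'.fst) (c d'.snd)) :
    ((rep G n c (.inr d)).points ∩ (rep G n c (.inr d')).points).Nonempty := by
  have hd := hc d.fst
  have hd' := hc d'.fst
  obtain ⟨h5, h6⟩ := num_lt (hc d.fst) (hc d.snd)
  obtain ⟨h7, h8⟩ := num_lt (hc d'.fst) (hc d'.snd)
  have hb := bit_cases (c d.fst) (c d.snd)
  have hb' := bit_cases (c d'.fst) (c d'.snd)
  have h1 : ex n (c d.fst) (c d.snd) =
    2 * num n (c d.fst) (c d.snd) + bit (c d.fst) (c d.snd) + 1 := rfl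
  have h2 : ey n (c d.fst) (c d.snd) =
    2 * ((n : ℤ) * n - num n (c d.fst) (c d.snd)) + bit (c d.fst) (c d.snd) + 1 := rfl
  have h1' : ex n (c d'.fst) (c d'.snd) =
    2 * num n (c d'.fst) (c d'.snd) + bit (c d'.fst) (c d'.snd) + 1 := rfl
  have h2' : ey n (c d'.fst) (c d'.snd) =
    2 * ((n : ℤ) * n - num n (c d'.fst) (c d'.snd)) + bit (c d'.fst) (c d'.snd) + 1 := rfl
  refine ⟨(ex n (c d.fst) (c d.snd), ey n (c d'.fst) (c d'.snd)), ?_, ?_⟩
  · rw [mem_d G n c d hd h5 h6]; left; refine ⟨rfl, ?_, ?_⟩ <;> dsimp only <;> omega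
  · rw [mem_d G n c d' hd' h7 h8]; right; refine ⟨rfl, ?_, ?_⟩ <;> dsimp only <;> omega

include hinj

theorem dd_not {d : G.Dart} :
    ¬ ((rep G n c (.inr d)).points ∩ (rep G n c (.inr d.symm)).points).Nonempty := by
  rintro ⟨q, h1, h2⟩
  have hd := hc d.fst
  have hd' := hc d.symm.fst
  obtain ⟨h5, h6⟩ := num_lt (hc d.fst) (hc d.snd)
  obtain ⟨h7, h8⟩ := num_lt (hc d.symm.fst) (hc d.symm.snd)
  rw [mem_d G n c d hd h5 h6] at h1
  rw [mem_d G n c d.symm hd' h7 h8] at h2
  have hne : c d.fst ≠ c d.snd := fun h => d.adj.ne (hinj h)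
  have hb := bit_cases (c d.fst) (c d.snd)
  have hb' := bit_symm hne
  have e1 : d.symm.fst = d.snd := rfl
  have e2 : d.symm.snd = d.fst := rfl
  rw [e1, e2] at h2
  have h3 : ex n (c d.fst) (c d.snd) =
    2 * num n (c d.fst) (c d.snd) + bit (c d.fst) (c d.snd) + 1 := rfl
  have h4 : ey n (c d.fst) (c d.snd) =
    2 * ((n : ℤ) * n - num n (c d.fst) (c d.snd)) + bit (c d.fst) (c d.snd) + 1 := rfl
  have h3' : ex n (c d.snd) (c d.fst) =
    2 * num n (c d.snd) (c d.fst) + bit (c d.snd) (c d.fst) + 1 := rfl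
  have h4' : ey n (c d.snd) (c d.fst) =
    2 * ((n : ℤ) * n - num n (c d.snd) (c d.fst)) + bit (c d.snd) (c d.fst) + 1 := rfl
  rw [num_symm n (c d.snd) (c d.fst)] at h3' h4'
  omega

theorem represents (a b : V ⊕ G.Dart) (hab : a ≠ b) :
    (sub G)ᶜ.Adj a b ↔ ((rep G n c a).points ∩ (rep G n c b).points).Nonempty := by
  rw [SimpleGraph.compl_adj]
  have hU : ∀ u v : V, u ≠ v →
      ((rep G n c (.inl u)).points ∩ (rep G n c (.inl v)).points).Nonempty := by
    intro u v h
    rcases lt_or_gt_of_ne (fun e => h (hinj e) : c u ≠ c v) with h1 | h1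
    · exact uu G n c hc h1
    · rw [Set.inter_comm]; exact uu G n c hc h1
  have hUD : ∀ (u : V) (d : G.Dart), ¬ d.fst = u ↔
      ((rep G n c (.inl u)).points ∩ (rep G n c (.inr d)).points).Nonempty := by
    intro u d
    constructor
    · intro h
      exact ud G n c hc (fun e => h (hinj e))
    · rintro h rfl
      exact ud_not G n c hc h
  have hDD : ∀ d d' : G.Dart, d ≠ d' → (¬ d' = d.symm ↔
      ((rep G n c (.inr d)).points ∩ (rep G n c (.inr d')).points).Nonempty) := by
    intro d d' hne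
    constructor
    · intro h
      rcases lt_trichotomy (num n (c d.fst) (c d.snd)) (num n (c d'.fst) (c d'.snd)) with
        h1 | h1 | h1
      · exact dd G n c hc h1
      · exfalso
        rcases num_inj (hc _) (hc _) (hc _) (hc _) h1 with ⟨e1, e2⟩ | ⟨e1, e2⟩
        · apply hne
          exact SimpleGraph.Dart.ext _ _ (Prod.ext (hinj e1) (hinj e2))
        · apply h
          exact SimpleGraph.Dart.ext _ _ (Prod.ext (hinj e2).symm (hinj e1).symm)
      · rw [Set.inter_comm]; exact dd G n c hc h1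
    · rintro h rfl
      exact dd_not G n c hc hinj h
  rcases a with u | d <;> rcases b with v | d'
  · have huv : u ≠ v := fun h => hab (by rw [h])
    exact ⟨fun _ => hU u v huv, fun _ => ⟨hab, fun h => h⟩⟩
  · exact ⟨fun h => (hUD u d').1 h.2, fun h => ⟨hab, (hUD u d').2 h⟩⟩
  · rw [Set.inter_comm]
    exact ⟨fun h => (hUD v d).1 h.2, fun h => ⟨hab, (hUD v d).2 h⟩⟩
  · have hdd : d ≠ d' := fun h => hab (by rw [h])
    exact ⟨fun h => (hDD d d' hdd).1 h.2, fun h => ⟨hab, (hDD d d' hdd).2 h⟩⟩

end Rep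

/-- Every finite graph, in particular every planar graph, has an even subdivision whose complement
is a `B₁`-VPG graph. -/
theorem result : ∀ (V : Type) [Finite V] (G : SimpleGraph V),
    ∃ (W : Type) (_ : Finite W) (G' : SimpleGraph W), IsEvenSubdivision G G' ∧ IsB1VPG G'ᶜ := by
  intro V _ G
  classical
  have : Fintype V := Fintype.ofFinite V
  let e := Fintype.equivFin V
  refine ⟨V ⊕ G.Dart, ?_, sub G, even_subdivision, rep G (Fintype.card V) (fun v => (e v : ℕ)),
    rep_bend G _ _, ?_⟩
  · have : Finite G.Dart := Finite.of_injective (fun d : G.Dart => d.toProd)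
      (fun a b h => SimpleGraph.Dart.ext _ _ h)
    infer_instance
  · intro a b hab
    exact represents G (Fintype.card V) (fun v => (e v : ℕ)) (fun v => (e v).isLt)
      (fun u v h => e.injective (Fin.ext h)) a b hab

end Pool.Agent.Results.MP_401231_co.EveryGraphOneBend
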