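import Pool.Agent.Run7.h937.LG.CMB
import Pool.Agent.Run7.h937.LG.ORD
import Pool.Agent.Run7.h937.LG.NL
import Pool.Agent.Run7.h884.LG.SEG
import Pool.Agent.Run7.h623.LG.B1

/-!
# MP_34d506_co: a segment graph that is a `B₁`-VPG graph and has no representation by L-shapes and
Gamma-shapes in general position

The graph is the complement of three disjoint cubes (24 vertices).
-/

set_option autoImplicit false

namespace Pool.Agent.Results.MP_34d506_co.NotInGeneralPosition

/-- `H` is the intersection graph of a family of (nondegenerate) straight-line segments. -/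
def IsSEG {V : Type} (H : SimpleGraph V) : Prop :=
  ∃ p q : V → ℝ × ℝ, (∀ a, p a ≠ q a) ∧ ∀ a b, a ≠ b →
    (H.Adj a b ↔ (segment ℝ (p a) (q a) ∩ segment ℝ (p b) (q b)).Nonempty)

/-- The union of the vertical segment from `(x, y)` to `(x, t)` and the horizontal segment from
`(x, y)` to `(r, y)`. -/
def bent (x y r t : ℝ) : Set (ℝ × ℝ) := segment ℝ (x, y) (x, t) ∪ segment ℝ (x, y) (r, y)

/-- `H` is a `B₁`-VPG graph: the intersection graph of a family of grid paths with at most one
bend, from `(x, t)` via the corner `(x, y)` to `(r, y)`, where `x, y, r, t` are integers. -/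
def IsB1VPG {V : Type} (H : SimpleGraph V) : Prop :=
  ∃ x y r t : V → ℤ, ∀ a b, a ≠ b →
    (H.Adj a b ↔ (bent (x a) (y a) (r a) (t a) ∩ bent (x b) (y b) (r b) (t b)).Nonempty)

/-- `H` is the intersection graph of a family of L-shapes (`x < r`, `y < t`) and Gamma-shapes
(`x < r`, `t < y`) such that the vertical segments of an L-shape and of a Gamma-shape never lie on
one vertical line. -/
def IsLGammaGeneral {V : Type} (H : SimpleGraph V) : Prop :=
  ∃ x y r t : V → ℝ, (∀ a, x a < r a ∧ y a ≠ t a) ∧
    (∀ a b, y a < t a → t b < y b → x a ≠ x b) ∧ ∀ a b, a ≠ b →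
    (H.Adj a b ↔ (bent (x a) (y a) (r a) (t a) ∩ bent (x b) (y b) (r b) (t b)).Nonempty)

/-- Some finite graph is a segment graph and a `B₁`-VPG graph, but it has no representation by
L-shapes and Gamma-shapes without an L-shape and a Gamma-shape on one vertical line. -/
theorem result : ∃ (V : Type) (_ : Finite V) (H : SimpleGraph V),
    IsSEG H ∧ IsB1VPG H ∧ ¬ IsLGammaGeneral H :=
  ⟨Fin 24, inferInstance, Run7.h937.LG.H, Run7.h884.LG.t_SEG, Run7.h623.LG.t_B1,
    Run7.h937.LG.t_NL (Run7.h937.LG.t_ORD Run7.h937.LG.t_CMB)⟩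

end Pool.Agent.Results.MP_34d506_co.NotInGeneralPosition
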